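import Pool.Agent.BEC.Stmts

/-!
# Squad BEC (MP_be01ff_an), row SHD: the function `δ` of a shell
-/

set_option autoImplicit false

namespace Pool.Agent.BEC.H29

open Set Filter Topology MeasureTheory InnerProductSpace Laplacian
open scoped InnerProductSpace ENNReal
open Pool.Agent.BE01F

noncomputable section

theorem shell_arith {r R s L y : ℝ} (hr : 0 < r) (h1 : r < s) (h2 : s < R) (hL : 0 ≤ L)
    (hy1 : y ≤ L * (s - r)) (hy2 : y ≤ L * (R - s)) :
    y ≤ L / ((R - r) * r * (R + r)) * ((s ^ 2 - r ^ 2) * (R ^ 2 - s ^ 2)) := by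
  have hp : 0 < s - r := by linarith
  have hq : 0 < R - s := by linarith
  have hD : 0 < (R - r) * r * (R + r) := by
    have : 0 < R - r := by linarith
    have : 0 < R + r := by linarith
    positivity
  -- `y (R - r) ≤ 2 L (s - r) (R - s)`
  have h3 : y * (R - r) ≤ 2 * L * ((s - r) * (R - s)) := by
    rcases le_total (s - r) (R - s) with h | h
    · have e1 : y * (R - r) ≤ L * (s - r) * (R - r) :=
        mul_le_mul_of_nonneg_right hy1 (by linarith)
      have e2 : L * (s - r) * (R - r) ≤ L * (s - r) * (2 * (R - s)) :=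
        mul_le_mul_of_nonneg_left (by linarith) (by positivity)
      linarith
    · have e1 : y * (R - r) ≤ L * (R - s) * (R - r) :=
        mul_le_mul_of_nonneg_right hy2 (by linarith)
      have e2 : L * (R - s) * (R - r) ≤ L * (R - s) * (2 * (s - r)) :=
        mul_le_mul_of_nonneg_left (by linarith) (by positivity)
      linarith
  have h4 : 2 * r * (R + r) ≤ (s + r) * (R + s) := by
    apply mul_le_mul (by linarith) (by linarith) (by linarith) (by linarith)
  have h5 : (s - r) * (R - s) * (2 * r * (R + r)) ≤ (s ^ 2 - r ^ 2) * (R ^ 2 - s ^ 2) := by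
    have e1 : (s ^ 2 - r ^ 2) * (R ^ 2 - s ^ 2) = (s - r) * (R - s) * ((s + r) * (R + s)) := by ring
    rw [e1]
    exact mul_le_mul_of_nonneg_left h4 (by positivity)
  have h6 : y * ((R - r) * r * (R + r)) ≤ L * ((s ^ 2 - r ^ 2) * (R ^ 2 - s ^ 2)) := by
    have e1 : y * ((R - r) * r * (R + r)) = y * (R - r) * (r * (R + r)) := by ring
    have e2 : y * (R - r) * (r * (R + r)) ≤ 2 * L * ((s - r) * (R - s)) * (r * (R + r)) :=
      mul_le_mul_of_nonneg_right h3 (by
        have : 0 < R + r := by linarith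
        positivity)
    have e3 : 2 * L * ((s - r) * (R - s)) * (r * (R + r)) =
        L * ((s - r) * (R - s) * (2 * r * (R + r))) := by ring
    have e4 := mul_le_mul_of_nonneg_left h5 hL
    linarith
  rw [div_mul_eq_mul_div, le_div_iff₀ hD]
  exact h6

theorem shd : ShdStmt := by
  intro d r R V f hr hrR hV hKV hf h0r h0R
  have hnc : Continuous (fun x : E d => ‖x‖) := continuous_norm
  have hδ : ContDiff ℝ ((⊤ : ℕ∞) : WithTop ℕ∞)
      (fun x : E d => (‖x‖ ^ 2 - r ^ 2) * (R ^ 2 - ‖x‖ ^ 2)) :=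
    ((contDiff_norm_sq ℝ).sub contDiff_const).mul (contDiff_const.sub (contDiff_norm_sq ℝ))
  have hpos : ∀ x ∈ Shl d r R, 0 < (‖x‖ ^ 2 - r ^ 2) * (R ^ 2 - ‖x‖ ^ 2) := by
    rintro x ⟨h1, h2⟩
    have h3 : 0 < ‖x‖ ^ 2 - r ^ 2 := by nlinarith
    have h4 : 0 < R ^ 2 - ‖x‖ ^ 2 := by nlinarith [norm_nonneg x]
    exact mul_pos h3 h4
  refine ⟨(isOpen_lt continuous_const hnc).inter (isOpen_lt hnc continuous_const), ?_, ?_, hδ,
    hpos, ?_, ?_⟩
  · refine (Metric.isBounded_ball (x := (0 : E d)) (r := R)).subset ?_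
    rintro x ⟨-, h2⟩
    rw [Metric.mem_ball, dist_zero_right]
    exact h2
  · refine closure_minimal (fun x hx => ⟨hx.1.le, hx.2.le⟩) ?_
    exact (isClosed_le continuous_const hnc).inter (isClosed_le hnc continuous_const)
  · intro ε hε
    have hset : {x | x ∈ Shl d r R ∧ ε ≤ (‖x‖ ^ 2 - r ^ 2) * (R ^ 2 - ‖x‖ ^ 2)} =
        {x : E d | r ≤ ‖x‖} ∩ {x : E d | ‖x‖ ≤ R} ∩
          {x : E d | ε ≤ (‖x‖ ^ 2 - r ^ 2) * (R ^ 2 - ‖x‖ ^ 2)} := by
      ext x
      constructor
      · rintro ⟨⟨h1, h2⟩, h3⟩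
        exact ⟨⟨h1.le, h2.le⟩, h3⟩
      · rintro ⟨⟨h1, h2⟩, h3⟩
        have h1' : r ≤ ‖x‖ := h1
        have h2' : ‖x‖ ≤ R := h2
        have h3' : ε ≤ (‖x‖ ^ 2 - r ^ 2) * (R ^ 2 - ‖x‖ ^ 2) := h3
        refine ⟨⟨lt_of_le_of_ne h1' ?_, lt_of_le_of_ne h2' ?_⟩, h3⟩
        · intro he
          rw [← he] at h3'
          simp only [sub_self, zero_mul] at h3'
          linarith
        · intro he
          rw [he] at h3'
          simp only [sub_self, mul_zero] at h3'
          linarith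
    rw [hset]
    refine IsCompact.of_isClosed_subset (isCompact_closedBall (0 : E d) R) ?_ ?_
    · exact ((isClosed_le continuous_const hnc).inter (isClosed_le hnc continuous_const)).inter
        (isClosed_le continuous_const hδ.continuous)
    · rintro x ⟨⟨-, h2⟩, -⟩
      rw [Metric.mem_closedBall, dist_zero_right]
      exact h2
  · -- the bound
    have hKc : IsCompact {x : E d | r ≤ ‖x‖ ∧ ‖x‖ ≤ R} := by
      refine IsCompact.of_isClosed_subset (isCompact_closedBall (0 : E d) R)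
        ((isClosed_le continuous_const hnc).inter (isClosed_le hnc continuous_const)) ?_
      rintro x ⟨-, h2⟩
      rw [Metric.mem_closedBall, dist_zero_right]
      exact h2
    obtain ⟨L0, hL0⟩ := hKc.exists_bound_of_continuousOn
      ((hf.continuousOn_fderiv_of_isOpen hV le_rfl).mono hKV)
    set L : ℝ := max L0 0 with hL
    have hLn : 0 ≤ L := le_max_right _ _
    refine ⟨L / ((R - r) * r * (R + r)), ?_, ?_⟩
    · have : 0 < R - r := by linarith
      have : 0 < R + r := by linarith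
      positivity
    · rintro x ⟨hx1, hx2⟩
      have hx0 : 0 < ‖x‖ := hr.trans hx1
      set e : E d := ‖x‖⁻¹ • x with he
      have hen : ‖e‖ = 1 := by
        rw [he, norm_smul, norm_inv, norm_norm, inv_mul_cancel₀ hx0.ne']
      have hnorm : ∀ τ : ℝ, 0 ≤ τ → ‖τ • e‖ = τ := fun τ hτ => by
        rw [norm_smul, hen, mul_one, Real.norm_of_nonneg hτ]
      have hmemK : ∀ τ ∈ Icc r R, τ • e ∈ {x : E d | r ≤ ‖x‖ ∧ ‖x‖ ≤ R} := by
        intro τ hτ
        have h1 := hnorm τ (hr.le.trans hτ.1)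
        show r ≤ ‖τ • e‖ ∧ ‖τ • e‖ ≤ R
        rw [h1]
        exact hτ
      have hder : ∀ τ ∈ Icc r R, HasDerivWithinAt (fun τ : ℝ => f (τ • e))
          (fderiv ℝ f (τ • e) e) (Icc r R) τ := by
        intro τ hτ
        have h1 : DifferentiableAt ℝ f (τ • e) :=
          (hf.differentiableOn (by simp)).differentiableAt (hV.mem_nhds (hKV (hmemK τ hτ)))
        have h2 : HasDerivAt (fun τ : ℝ => τ • e) ((1 : ℝ) • e) τ :=
          (hasDerivAt_id τ).smul_const e
        rw [one_smul] at h2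
        exact (h1.hasFDerivAt.comp_hasDerivAt τ h2).hasDerivWithinAt
      have hbd : ∀ τ ∈ Icc r R, ‖fderiv ℝ f (τ • e) e‖ ≤ L := by
        intro τ hτ
        have h1 := hL0 _ (hmemK τ hτ)
        calc ‖fderiv ℝ f (τ • e) e‖ ≤ ‖fderiv ℝ f (τ • e)‖ * ‖e‖ :=
              ContinuousLinearMap.le_opNorm _ _
          _ ≤ L := by
              rw [hen, mul_one]
              exact h1.trans (le_max_left _ _)
      have hs : ‖x‖ ∈ Icc r R := ⟨hx1.le, hx2.le⟩
      have hxe : ‖x‖ • e = x := by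
        rw [he, smul_smul, mul_inv_cancel₀ hx0.ne', one_smul]
      have m1 := (convex_Icc r R).norm_image_sub_le_of_norm_hasDerivWithin_le hder hbd
        (left_mem_Icc.2 hrR.le) hs
      have m2 := (convex_Icc r R).norm_image_sub_le_of_norm_hasDerivWithin_le hder hbd hs
        (right_mem_Icc.2 hrR.le)
      simp only [hxe] at m1 m2
      rw [h0r (r • e) (hnorm r hr.le), sub_zero, Real.norm_eq_abs, Real.norm_of_nonneg
        (by linarith : 0 ≤ ‖x‖ - r)] at m1
      rw [h0R (R • e) (hnorm R (hr.le.trans hrR.le)), zero_sub, norm_neg, Real.norm_eq_abs,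
        Real.norm_of_nonneg (by linarith : 0 ≤ R - ‖x‖)] at m2
      exact shell_arith hr hx1 hx2 hLn m1 m2

end

end Pool.Agent.BEC.H29
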