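import Pool.Agent.BEC.Stmts

/-!
# Squad BEC (MP_be01ff_an), row WEK: the weak form
-/

set_option autoImplicit false

namespace Pool.Agent.BEC.H29

open Set Filter Topology MeasureTheory InnerProductSpace Laplacian
open scoped InnerProductSpace ENNReal
open Pool.Agent.BE01F

noncomputable section

theorem grad_zero_of {d : ℕ} {ψ : E d → ℝ} {x : E d} (hx : x ∉ tsupport ψ) :
    gradient ψ x = 0 := by
  have h2 : x ∉ tsupport (fderiv ℝ ψ) := fun h3 => hx (tsupport_fderiv_subset ℝ h3)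
  rw [gradient, image_eq_zero_of_notMem_tsupport h2, map_zero]

theorem contSlice {d : ℕ} (g : ℝ × E d → ℝ) {U : Set (ℝ × E d)} (hc : ContinuousOn g U)
    (hU : IsOpen U) (t : ℝ) (x : E d) (h : ((t, x) : ℝ × E d) ∈ U) :
    ContinuousAt (fun s : ℝ => g (s, x)) t := by
  have h1 : Tendsto g (𝓝 ((t, x) : ℝ × E d)) (𝓝 (g (t, x))) := hc.continuousAt (hU.mem_nhds h)
  have h2 : Continuous (fun s : ℝ => ((s, x) : ℝ × E d)) := by fun_prop
  exact h1.comp (h2.tendsto t)

theorem wek (cse : CseStmt) (gre : GreStmt) : WekStmt := by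
  intro d Ω u a α hΩ hb hC2 hα heq t ht ψ hψ
  obtain ⟨U, hU, hUs, hu⟩ := hC2
  obtain ⟨c1, c2, c3, c4, c5, c6, c7⟩ := cse d U u hU hu
  have hmem : ∀ x ∈ Ω, ((t, x) : ℝ × E d) ∈ U := fun x hx => hUs ⟨ht, subset_closure hx⟩
  -- the equation for `t ≥ 0`
  have heq' : ∀ x ∈ Ω, wt u t x - (Δ (u t)) x + a * (|vt u t x| ^ α * vt u t x) = 0 := by
    intro x hx
    have k1 : ContinuousAt (fun s : ℝ => vt u s x) t :=
      contSlice (fun z : ℝ × E d => vt u z.1 z.2) c2 hU t x (hmem x hx)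
    have k2 : ContinuousAt (fun s : ℝ => wt u s x) t :=
      contSlice (fun z : ℝ × E d => wt u z.1 z.2) c3 hU t x (hmem x hx)
    have k3 : ContinuousAt (fun s : ℝ => (Δ (u s)) x) t :=
      contSlice (fun z : ℝ × E d => (Δ (u z.1)) z.2) c5 hU t x (hmem x hx)
    have k4 : ContinuousAt (fun s : ℝ => |vt u s x| ^ α) t :=
      k1.abs.rpow_const (Or.inr hα.le)
    have k5 : ContinuousAt (fun s : ℝ => wt u s x - (Δ (u s)) x +
        a * (|vt u s x| ^ α * vt u s x)) t :=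
      (k2.sub k3).add (continuousAt_const.mul (k4.mul k1))
    have k6 : Tendsto (fun s : ℝ => wt u s x - (Δ (u s)) x +
        a * (|vt u s x| ^ α * vt u s x)) (𝓝[>] t) (𝓝 (wt u t x - (Δ (u t)) x +
        a * (|vt u t x| ^ α * vt u t x))) := k5.mono_left nhdsWithin_le_nhds
    have k7 : Tendsto (fun s : ℝ => wt u s x - (Δ (u s)) x +
        a * (|vt u s x| ^ α * vt u s x)) (𝓝[>] t) (𝓝 0) := by
      refine tendsto_const_nhds.congr' ?_
      filter_upwards [self_mem_nhdsWithin] with s hs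
      exact (heq s x (lt_of_le_of_lt ht hs) hx).symm
    exact tendsto_nhds_unique k6 k7
  have hut : ContDiffOn ℝ 2 (u t) Ω := (c1 t).2.1.mono fun x hx => hmem x hx
  obtain ⟨-, -, hint⟩ := gre d Ω (u t) ψ hΩ hut hψ.1 hψ.2.1 hψ.2.2
  have hae : ∀ᵐ x ∂(vol Ω), x ∈ Ω := ae_restrict_mem hΩ.measurableSet
  have e1 : intg Ω (fun x => wt u t x * ψ x + ⟪gradient (u t) x, gradient ψ x⟫_ℝ +
      a * |vt u t x| ^ α * vt u t x * ψ x) =
      ∫ x, ((Δ (u t)) x * ψ x + ⟪gradient (u t) x, gradient ψ x⟫_ℝ) ∂(vol Ω) := by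
    refine integral_congr_ae ?_
    filter_upwards [hae] with x hx
    have h1 := heq' x hx
    have h2 : wt u t x = (Δ (u t)) x - a * (|vt u t x| ^ α * vt u t x) := by linarith
    rw [h2]
    ring
  rw [e1, ← hint]
  refine setIntegral_eq_integral_of_forall_compl_eq_zero fun x hx => ?_
  have h1 : x ∉ tsupport ψ := fun h => hx (hψ.2.2 h)
  rw [image_eq_zero_of_notMem_tsupport h1, grad_zero_of h1, inner_zero_right, mul_zero, add_zero]

end

end Pool.Agent.BEC.H29
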